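import Pool.Agent.H75.CY.Defs

/-!
# [H75 CY Cob] coboundaries

`avg`: `d` is constant on the left cosets `g U`, `g ∈ E` (`d (g u) = d g + D g d u`), of which there are finitely many, `n = U.relIndex E`. Let `T` be the sum of the values of `d` on the cosets
(a sum over the finite type `E ⧸ U.subgroupOf E` of a function defined by `Quotient.lift`). For `h ∈ E`: `g U ↦ h g U` is a bijection, `d (h g) = d h + D h d g`, so `T = n d h + D h T`. `β = - T / n`.
`exists_cob`: choose for every `p` a representative `r p` of its orbit, `s p : G` with `s p • r p = p`, and `β (r p)` for the stabiliser of `r p`. Put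
`b p = D (s p) * β (r p) - d (s p) p`. Check: let `p' = g⁻¹ • p`, `s = s p`, `s' = s p'`, `x = s⁻¹ g s'`, it fixes `r = r p = r p'`. `d (g s') p = d g p + D g d s' p'` and
`d (g s') p = d (s x) p = d s p + D s d x r = d s p + D s (D x β - β)`, and `D g D s' = D s D x`.
-/

set_option autoImplicit false

namespace Pool.Agent.H75.CY

open Pool.Agent.H98.FJ Pool.Agent.H76.VC

theorem avg {G : Type} [Group G] (D : G →* ℚˣ) (d : G → ℚ) {E U : Subgroup G} (hU : U ≤ E) (hi : U.relIndex E ≠ 0)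
    (hd : ∀ g ∈ E, ∀ h ∈ E, d (g * h) = d g + D g * d h) (h0 : ∀ u ∈ U, d u = 0) :
    ∃ β : ℚ, ∀ g ∈ E, d g = D g * β - β := by
  classical
  letI : Fintype (E ⧸ U.subgroupOf E) := Subgroup.fintypeOfIndexNeZero hi
  let c : E ⧸ U.subgroupOf E → ℚ := Quotient.lift (fun g : E => d g) (by
    intro g g' hgg
    have h1 : g⁻¹ * g' ∈ U.subgroupOf E := QuotientGroup.leftRel_apply.1 hgg
    have h2 : ((g⁻¹ * g' : E) : G) ∈ U := h1
    show d (g : G) = d (g' : G)
    have h3 : (g' : G) = (g : G) * ((g⁻¹ * g' : E) : G) := by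
      push_cast
      group
    rw [h3, hd _ g.2 _ (hU h2), h0 _ h2, mul_zero, add_zero])
  have hc : ∀ (h : E) (q : E ⧸ U.subgroupOf E), c (h • q) = d h + D h * c q := by
    intro h q
    induction q using QuotientGroup.induction_on with
    | H g => exact hd _ h.2 _ g.2
  have hcard : ((Fintype.card (E ⧸ U.subgroupOf E) : ℕ) : ℚ) ≠ 0 := by
    exact_mod_cast Fintype.card_ne_zero
  refine ⟨-(∑ q, c q) / (Fintype.card (E ⧸ U.subgroupOf E) : ℕ), ?_⟩
  intro g hg
  have h1 : ∑ q, c ((⟨g, hg⟩ : E) • q) = ∑ q, c q :=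
    Equiv.sum_comp (MulAction.toPerm (⟨g, hg⟩ : E)) c
  have h2 : ∑ q, c ((⟨g, hg⟩ : E) • q) = (Fintype.card (E ⧸ U.subgroupOf E) : ℕ) * d g + D g * ∑ q, c q := by
    rw [Finset.sum_congr rfl fun q _ => hc ⟨g, hg⟩ q, Finset.sum_add_distrib, Finset.sum_const, Finset.card_univ,
      nsmul_eq_mul, ← Finset.mul_sum]
  rw [h1] at h2
  field_simp
  linarith

theorem exists_cob {G P : Type} [Group G] [MulAction G P] (D : G →* ℚˣ) (d : G → P → ℚ)
    (hd : ∀ (g h : G) (p : P), d (g * h) p = d g p + D g * d h (g⁻¹ • p))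
    (h : ∀ p : P, ∃ β : ℚ, ∀ g ∈ MulAction.stabilizer G p, d g p = D g * β - β) :
    ∃ b : P → ℚ, ∀ (g : G) (p : P), d g p = D g * b (g⁻¹ • p) - b p := by
  choose β hβ using h
  let r : P → P := fun p => (Quotient.mk (MulAction.orbitRel G P) p).out
  have hr : ∀ p, ∃ s : G, s • r p = p := by
    intro p
    have h1 : (MulAction.orbitRel G P) (r p) p := Quotient.mk_out p
    have h2 : (MulAction.orbitRel G P) p (r p) := (MulAction.orbitRel G P).symm h1
    rw [MulAction.orbitRel_apply] at h2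
    exact h2
  choose s hs using hr
  have hrr : ∀ (g : G) (p : P), r (g⁻¹ • p) = r p := by
    intro g p
    have h1 : Quotient.mk (MulAction.orbitRel G P) (g⁻¹ • p) = Quotient.mk (MulAction.orbitRel G P) p := by
      apply Quotient.sound
      show (MulAction.orbitRel G P) (g⁻¹ • p) p
      rw [MulAction.orbitRel_apply]
      exact ⟨g⁻¹, rfl⟩
    show (Quotient.mk (MulAction.orbitRel G P) (g⁻¹ • p)).out = (Quotient.mk (MulAction.orbitRel G P) p).out
    rw [h1]
  refine ⟨fun p => D (s p) * β (r p) - d (s p) p, ?_⟩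
  intro g p
  have e1 : s (g⁻¹ • p) • r p = g⁻¹ • p := by
    have := hs (g⁻¹ • p)
    rwa [hrr] at this
  have e2 : (s p)⁻¹ • p = r p := by
    rw [inv_smul_eq_iff]
    exact (hs p).symm
  have hx : ((s p)⁻¹ * (g * s (g⁻¹ • p))) • r p = r p := by
    rw [mul_smul, mul_smul, e1, smul_inv_smul, e2]
  have h1 := hβ (r p) _ (MulAction.mem_stabilizer_iff.2 hx)
  have h2 := hd g (s (g⁻¹ • p)) p
  have h3 := hd (s p) ((s p)⁻¹ * (g * s (g⁻¹ • p))) p
  rw [mul_inv_cancel_left, e2, h1] at h3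
  have h4 : (D (s p) : ℚ) * D ((s p)⁻¹ * (g * s (g⁻¹ • p))) = D g * D (s (g⁻¹ • p)) := by
    rw [← Units.val_mul, ← Units.val_mul, ← map_mul, ← map_mul, mul_inv_cancel_left]
  show d g p = D g * (D (s (g⁻¹ • p)) * β (r (g⁻¹ • p)) - d (s (g⁻¹ • p)) (g⁻¹ • p)) - (D (s p) * β (r p) - d (s p) p)
  rw [hrr]
  have h5 : d g p = d (s p) p + D (s p) * (D ((s p)⁻¹ * (g * s (g⁻¹ • p))) * β (r p) - β (r p)) -
      D g * d (s (g⁻¹ • p)) (g⁻¹ • p) := by
    rw [← h3, h2]
    ring
  rw [h5, mul_sub, ← mul_assoc, h4]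
  ring

end Pool.Agent.H75.CY
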