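import Pool.Agent.H75.CY.Ind
import Pool.Agent.H75.CY.Cob
import Pool.Agent.H93.TR.Pot

/-!
# [H75 CY Glu] gluing crossed homomorphisms over a tree

`glue`: let `F` be as in `exists_ind`. Let `G` act on `V × V` (`Prod`), `d g (v, w) = F g w - F g v` if `X.Adj v w` and `0` otherwise: `d (g h) p = d g p + D g d h (g⁻¹ • p)` (`X.Adj` is
invariant). On the stabiliser `E` of an adjacent pair `(v, w)`: let `k ≠ 0`, `z ^ k` fixes `v` and `w` (`hfix`, product of the exponents); `d` vanishes on `U = zpowers (z ^ k)`, which has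
finite index in `E` (`E` is virtually cyclic, `z ^ k` has infinite order: `Pool.Agent.H76.VC.vc_index` or `vc_gen`), so `avg` applies. `exists_cob` gives `b'`, and
`b (v, w) = (b' (v, w) - b' (w, v)) / 2` has the same property (`d g (w, v) = - d g (v, w)`) and `b (w, v) = - b (v, w)`. `Pool.Agent.H93.TR.exists_potential` with
`A = Multiplicative ℚ` gives `a : V → ℚ` with `a w - a v = b (v, w)` for adjacent `v`, `w`. The function `F g v - (D g * a (g⁻¹ • v) - a v)` of `v` takes the same values at adjacent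
vertices, so it is a constant `f g` (`X` is connected). Crossed: evaluate `f (g h)` at `v` and `f h` at `g⁻¹ • v`. `f (z ^ j)`: let `z ^ k • v = v`, `k ≠ 0`: `z ^ (j k)` fixes `v`, so
`f (z ^ (j k)) = F (z ^ (j k)) v = j k` (`D (z ^ (j k)) = 1`, `mod_self`), and `f (z ^ (j k)) = k f (z ^ j)` (`cr_pow`).
-/

set_option autoImplicit false

namespace Pool.Agent.H75.CY

open Pool.Agent.H98.FJ Pool.Agent.H76.VC Pool.Agent.H93.TR

/-- finite index of the powers of an element of infinite order in a virtually cyclic group -/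
private theorem glu_idx {G : Type} [Group G] {E : Subgroup G} (hE : VirtuallyCyclic E) {y : G}
    (hyE : y ∈ E) (hy : ¬ IsOfFinOrder y) : (Subgroup.zpowers y).relIndex E ≠ 0 := by
  obtain ⟨s, hs⟩ := vc_index hE hyE hy
  have hfin : Finite (E ⧸ (Subgroup.zpowers y).subgroupOf E) := by
    classical
    choose! t ht1 k hk using hs
    refine Finite.of_injective (β := s) (fun q => ⟨t (q.out : G), ht1 _ q.out.2⟩) ?_
    intro p q hpq
    have h1 : t (p.out : G) = t (q.out : G) := congrArg Subtype.val hpq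
    have h2 := hk _ p.out.2
    have h3 := hk _ q.out.2
    have h5 : (p.out : G)⁻¹ * (q.out : G) = y ^ (k (q.out : G) - k (p.out : G)) := by
      calc (p.out : G)⁻¹ * (q.out : G)
          = (t (p.out : G) * y ^ k (p.out : G))⁻¹ * (t (q.out : G) * y ^ k (q.out : G)) := by
            rw [← h2, ← h3]
        _ = y ^ (k (q.out : G) - k (p.out : G)) := by
            rw [h1, mul_inv_rev, mul_assoc, inv_mul_cancel_left, ← zpow_neg, ← zpow_add]
            congr 1
            ring
    have h4 : (QuotientGroup.mk p.out : E ⧸ (Subgroup.zpowers y).subgroupOf E) = QuotientGroup.mk q.out := by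
      rw [QuotientGroup.eq, Subgroup.mem_subgroupOf, Subgroup.coe_mul, Subgroup.coe_inv, h5]
      exact ⟨_, rfl⟩
    rwa [QuotientGroup.out_eq', QuotientGroup.out_eq'] at h4
  exact Subgroup.index_ne_zero_of_finite

private theorem glu_const {V : Type} {X : SimpleGraph V} (hX : X.Connected) (c : V → ℚ)
    (h : ∀ v w, X.Adj v w → c v = c w) (v w : V) : c v = c w := by
  obtain ⟨p⟩ := hX.preconnected v w
  induction p with
  | nil => rfl
  | cons hadj p ih => exact (h _ _ hadj).trans ih

theorem glue {G V : Type} [Group G] [MulAction G V] {X : SimpleGraph V} (hX : OnTree G X) (hE : EdgeVC G X) {z : G}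
    (hz : ¬ IsOfFinOrder z) (hc : ∀ g : G, g ∈ Com z) {D : G →* ℚˣ} (hD : Mo z D)
    (hfix : ∀ v : V, ∃ k : ℤ, k ≠ 0 ∧ z ^ k • v = v)
    (h : ∀ v : V, ∃ f : G → ℚ, Cr D z (MulAction.stabilizer G v) f) : ∃ f : G → ℚ, Cr D z ⊤ f := by
  classical
  obtain ⟨F, hF1, hF2⟩ := exists_ind hc hD h
  have hadj : ∀ (g : G) (v w : V), X.Adj v w ↔ X.Adj (g • v) (g • w) := by
    intro g v w
    refine ⟨hX.adj g v w, fun h1 => ?_⟩
    have h2 := hX.adj g⁻¹ _ _ h1
    rwa [inv_smul_smul, inv_smul_smul] at h2
  -- the differences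
  let d : G → V × V → ℚ := fun g p => if X.Adj p.1 p.2 then F g p.2 - F g p.1 else 0
  have hd : ∀ (g h : G) (p : V × V), d (g * h) p = d g p + D g * d h (g⁻¹ • p) := by
    rintro g h ⟨v, w⟩
    simp only [d, Prod.smul_mk]
    by_cases hvw : X.Adj v w
    · rw [if_pos hvw, if_pos hvw, if_pos ((hadj g⁻¹ v w).1 hvw), hF1, hF1]
      ring
    · rw [if_neg hvw, if_neg hvw, if_neg (fun h1 => hvw ((hadj g⁻¹ v w).2 h1))]
      ring
  have hdE : ∀ p : V × V, ∃ β : ℚ, ∀ g ∈ MulAction.stabilizer G p, d g p = D g * β - β := by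
    rintro ⟨v, w⟩
    by_cases hvw : X.Adj v w
    · obtain ⟨k, hk, hkv⟩ := hfix v
      obtain ⟨l, hl, hlw⟩ := hfix w
      have h1 : z ^ (k * l) • v = v := by
        rw [zpow_mul]
        exact zpow_fix hkv l
      have h2 : z ^ (k * l) • w = w := by
        rw [mul_comm, zpow_mul]
        exact zpow_fix hlw k
      have h3 : (MulAction.stabilizer G (v, w)) = MulAction.stabilizer G v ⊓ MulAction.stabilizer G w := by
        ext g
        simp [MulAction.mem_stabilizer_iff, Prod.ext_iff]
      have h4 : VirtuallyCyclic (MulAction.stabilizer G (v, w)) := by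
        rw [h3]
        exact hE v w hvw
      have h5 : z ^ (k * l) ∈ MulAction.stabilizer G (v, w) := by
        rw [h3]
        exact ⟨h1, h2⟩
      have h6 : ¬ IsOfFinOrder (z ^ (k * l)) := not_fin_zpow hz (mul_ne_zero hk hl)
      refine avg D (fun g => d g (v, w)) (U := Subgroup.zpowers (z ^ (k * l))) ?_ (glu_idx h4 h5 h6) ?_ ?_
      · rwa [Subgroup.zpowers_le]
      · intro g hg h hh
        have h7 : g⁻¹ • (v, w) = (v, w) := by
          rw [inv_smul_eq_iff]
          exact hg.symm
        show d (g * h) (v, w) = d g (v, w) + D g * d h (v, w)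
        rw [hd, h7]
      · intro u hu
        obtain ⟨j, rfl⟩ := hu
        show d ((z ^ (k * l)) ^ j) (v, w) = 0
        simp only [d]
        rw [if_pos hvw]
        have h7 : z ^ (k * l * j) • v = v := by
          rw [zpow_mul]
          exact zpow_fix h1 j
        have h8 : z ^ (k * l * j) • w = w := by
          rw [zpow_mul]
          exact zpow_fix h2 j
        rw [← zpow_mul, hF2 _ _ h7, hF2 _ _ h8, sub_self]
    · refine ⟨0, fun g _ => ?_⟩
      simp only [d]
      rw [if_neg hvw]
      ring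
  obtain ⟨b', hb'⟩ := exists_cob D d hd hdE
  have hds : ∀ (g : G) (v w : V), d g (w, v) = - d g (v, w) := by
    intro g v w
    simp only [d]
    by_cases hvw : X.Adj v w
    · rw [if_pos hvw, if_pos hvw.symm]
      ring
    · rw [if_neg hvw, if_neg (fun h1 => hvw h1.symm)]
      ring
  let b : V → V → ℚ := fun v w => (b' (v, w) - b' (w, v)) / 2
  have hb : ∀ (g : G) (v w : V), d g (v, w) = D g * b (g⁻¹ • v) (g⁻¹ • w) - b v w := by
    intro g v w
    have h1 := hb' g (v, w)
    have h2 := hb' g (w, v)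
    rw [hds] at h2
    simp only [Prod.smul_mk] at h1 h2
    simp only [b]
    linarith
  obtain ⟨a', ha'⟩ := exists_potential (A := Multiplicative ℚ) hX.tree (fun v w => Multiplicative.ofAdd (b v w)) (by
    intro v w _
    rw [← ofAdd_add, ← ofAdd_zero]
    congr 1
    simp only [b]
    ring)
  let a : V → ℚ := fun v => Multiplicative.toAdd (a' v)
  have ha : ∀ v w, X.Adj v w → a w = a v + b v w := by
    intro v w hvw
    have h1 := congrArg Multiplicative.toAdd (ha' v w hvw)
    rw [toAdd_mul, toAdd_ofAdd] at h1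
    exact h1
  -- the constants
  have hcon : ∀ (g : G) (v w : V), F g v - (D g * a (g⁻¹ • v) - a v) = F g w - (D g * a (g⁻¹ • w) - a w) := by
    intro g
    refine glu_const hX.tree.connected (fun v => F g v - (D g * a (g⁻¹ • v) - a v)) ?_
    intro v w hvw
    have h1 := hb g v w
    simp only [d] at h1
    rw [if_pos hvw] at h1
    have h2 := ha v w hvw
    have h3 := ha _ _ ((hadj g⁻¹ v w).1 hvw)
    rw [h2, h3, mul_add]
    linarith
  obtain ⟨r⟩ := hX.tree.connected.nonempty
  let f : G → ℚ := fun g => F g r - (D g * a (g⁻¹ • r) - a r)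
  have hf : ∀ (g : G) (v : V), f g = F g v - (D g * a (g⁻¹ • v) - a v) := fun g v => hcon g r v
  have hf1 : ∀ g h, f (g * h) = f g + D g * f h := by
    intro g h
    rw [hf (g * h) r, hf g r, hf h (g⁻¹ • r), hF1, mul_inv_rev, mul_smul, map_mul, Units.val_mul]
    ring
  refine ⟨f, fun g _ h _ => hf1 g h, fun j _ => ?_⟩
  obtain ⟨k, hk, hkr⟩ := hfix r
  have h1 : z ^ (j * k) • r = r := by
    rw [mul_comm, zpow_mul]
    exact zpow_fix hkr j
  have h2 : f (z ^ (j * k)) = ((j * k : ℤ) : ℚ) := by
    have h3 : (z ^ (j * k))⁻¹ • r = r := by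
      rw [inv_smul_eq_iff]
      exact h1.symm
    rw [hf _ r, hF2 _ _ h1, h3, mod_self hD]
    simp
  have h3 : f ((z ^ j) ^ k) = k * f (z ^ j) :=
    cr_pow (z := z) (E := ⊤) (fun g _ h _ => hf1 g h) (Subgroup.mem_top _) (mod_self hD j) k
  rw [← zpow_mul, h2] at h3
  push_cast at h3
  have h4 : (k : ℚ) ≠ 0 := by exact_mod_cast hk
  apply mul_left_cancel₀ h4
  rw [← h3]
  ring

end Pool.Agent.H75.CY
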