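import Pool.Agent.H75.CY.Defs

/-!
# [H75 CY Aff] the image in the affine group is solvable

`exists_aff`: `N = {g | D g = 1 ∧ f g = 0}` is a normal subgroup (`f (g x g⁻¹) = f g + D g f x + D g D x f g⁻¹`, `f g⁻¹ = - D g⁻¹ f g`, `f 1 = 0`), `S = G ⧸ N`, `ρ` the quotient map. `S` is
solvable: the homomorphism `S → ℚˣ` induced by `D` has an abelian kernel (`f` is an injective homomorphism on it; `D` and `ℚˣ` commutative; `solvable_of_ker_le_range` or similar).
Alternative: the range of the homomorphism from `G` to `Equiv.Perm ℚ`, `g ↦ (x ↦ D g x + f g)`. `Group.IsSolvable` is the class in Mathlib for groups used in `hS`.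
-/

set_option autoImplicit false

namespace Pool.Agent.H75.CY

open Pool.Agent.H98.FJ Pool.Agent.H76.VC

/-- the action of `ℚˣ` on `ℚ` -/
private def am : ℚˣ →* MulAut (Multiplicative ℚ) where
  toFun u :=
    { toFun := fun x => Multiplicative.ofAdd ((u : ℚ) * Multiplicative.toAdd x)
      invFun := fun x => Multiplicative.ofAdd (((u⁻¹ : ℚˣ) : ℚ) * Multiplicative.toAdd x)
      left_inv := fun x => by
        change Multiplicative.ofAdd (((u⁻¹ : ℚˣ) : ℚ) * ((u : ℚ) * Multiplicative.toAdd x)) = x
        rw [← mul_assoc, Units.inv_mul, one_mul]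
        rfl
      right_inv := fun x => by
        change Multiplicative.ofAdd ((u : ℚ) * (((u⁻¹ : ℚˣ) : ℚ) * Multiplicative.toAdd x)) = x
        rw [← mul_assoc, Units.mul_inv, one_mul]
        rfl
      map_mul' := fun x y => by
        change Multiplicative.ofAdd ((u : ℚ) * (Multiplicative.toAdd x + Multiplicative.toAdd y)) =
          Multiplicative.ofAdd ((u : ℚ) * Multiplicative.toAdd x + (u : ℚ) * Multiplicative.toAdd y)
        rw [mul_add] }
  map_one' := by
    ext x
    change ((1 : ℚˣ) : ℚ) * Multiplicative.toAdd x = Multiplicative.toAdd x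
    rw [Units.val_one, one_mul]
  map_mul' u v := by
    ext x
    change ((u * v : ℚˣ) : ℚ) * Multiplicative.toAdd x = (u : ℚ) * ((v : ℚ) * Multiplicative.toAdd x)
    rw [Units.val_mul, mul_assoc]

theorem exists_aff {G : Type} [Group G] (D : G →* ℚˣ) (f : G → ℚ) (hf : ∀ g h : G, f (g * h) = f g + D g * f h) :
    ∃ (S : Type) (_ : Group S) (ρ : G →* S), Function.Surjective ρ ∧ Group.IsSolvable S ∧
      ∀ g : G, ρ g = 1 ↔ D g = 1 ∧ f g = 0 := by
  have hs : Group.IsSolvable (Multiplicative ℚ ⋊[am] ℚˣ) :=
    Group.isSolvable_of_ker_le_range (SemidirectProduct.inl (φ := am)) (SemidirectProduct.rightHom (φ := am))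
      SemidirectProduct.range_inl_eq_ker_rightHom.ge
  have h1 : f 1 = 0 := by
    have h := hf 1 1
    rw [mul_one, map_one, Units.val_one, one_mul] at h
    linarith
  let Φ : G →* (Multiplicative ℚ ⋊[am] ℚˣ) :=
    { toFun := fun g => ⟨Multiplicative.ofAdd (f g), D g⟩
      map_one' := by
        refine SemidirectProduct.ext ?_ ?_
        · change f 1 = 0
          exact h1
        · exact map_one D
      map_mul' := fun g h => by
        refine SemidirectProduct.ext ?_ ?_
        · exact hf g h
        · exact map_mul D g h }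
  refine ⟨Φ.range, inferInstance, Φ.rangeRestrict, Φ.rangeRestrict_surjective, inferInstance, fun g => ?_⟩
  constructor
  · intro h
    have h2 : Φ g = 1 := congrArg (fun x : Φ.range => (x : Multiplicative ℚ ⋊[am] ℚˣ)) h
    exact ⟨congrArg SemidirectProduct.right h2, congrArg SemidirectProduct.left h2⟩
  · rintro ⟨h2, h3⟩
    apply Subtype.ext
    exact SemidirectProduct.ext h3 h2

end Pool.Agent.H75.CY
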