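import Pool.Agent.H75.CY.Cpt
import Pool.Agent.H75.CY.Aff
import Pool.Agent.H76.VC.Fin2

/-!
# [H75 CY Mem] groups with a normalised crossed homomorphism are in the class

`mem_of_cr`: let `ρ : G → S` be as in `exists_aff` (`f` is crossed on `⊤`). `S` is in `C` by `hS`; by `hE` it is enough that `C (U.comap ρ)` for every virtually cyclic `U ≤ S`. By
`Pool.Agent.H76.VC.of_fg` (and `Subgroup.map` to `G`, `hC.iso`) consider a finitely generated subgroup `L` of `G` with `ρ L ≤ U`; apply `Pool.Agent.H76.VC.main` to the action of `L` on `V`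
(`res_onTree`, `res_stab`, `res_edge` from H76/VC/ComMem). Its last hypothesis holds because every `y ∈ L` of infinite order which fixes adjacent `v`, `w` is balanced in `L` (`Bal y`, in the group
`L`): let `k ≠ 0` such that `z ^ k` fixes `v` and `w` (`hfix`); `y ^ a = z ^ (k c) = z ^ b` with `a`, `b ≠ 0` by `vc_pow` in the stabiliser of the edge. Let `g ∈ L`, `g y ^ m g⁻¹ = y ^ n`, `m`, `n ≠ 0`. Then
`g (z ^ b) ^ m g⁻¹ = (z ^ b) ^ n`, with `x = z ^ b = y ^ a ∈ L`. In the virtually cyclic group `U` the element `ρ x` has infinite order (`ρ (x ^ i) = 1` gives `f (z ^ (b i)) = b i = 0`), so it is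
balanced by `Pool.Agent.H76.VC.balG_vc`: `|m| = |n|`.
-/

set_option autoImplicit false

namespace Pool.Agent.H75.CY

open Pool.Agent.H98.FJ Pool.Agent.H76.VC Pool.Agent.H93.TR

theorem mem_of_cr {C : (G : Type) → [Group G] → Prop} (hC : Inherits C) (hE : Extension C) (hA : AcylExt C)
    (hS : ∀ (G : Type) [Group G], Group.IsSolvable G → C G) {G V : Type} [Group G] [MulAction G V]
    {X : SimpleGraph V} (hX : OnTree G X) (hv : ∀ v : V, C (MulAction.stabilizer G v)) (hEd : EdgeVC G X) {z : G}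
    (hz : ¬ IsOfFinOrder z) (hfix : ∀ v : V, ∃ k : ℤ, k ≠ 0 ∧ z ^ k • v = v) {D : G →* ℚˣ} {f : G → ℚ}
    (hf : Cr D z ⊤ f) : C G := by
  obtain ⟨S, _, ρ, hsurj, hsolv, hρ⟩ := exists_aff D f (fun g h => hf.1 g trivial h trivial)
  refine hE G S ρ hsurj (hS S hsolv) (fun U hU => ?_)
  refine Pool.Agent.H76.VC.main hC hA (res_onTree hX _) (res_stab hC hv _) (res_edge hEd _) ?_
  intro y v w hvw hyv hyw hy hnb
  refine absurd ?_ hnb
  obtain ⟨k1, hk1, h1⟩ := hfix v
  obtain ⟨k2, hk2, h2⟩ := hfix w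
  have hy0 : ¬ IsOfFinOrder (y : G) := not_fin_map (U.comap ρ).subtype Subtype.val_injective hy
  have h3 : z ^ (k1 * k2) • v = v := by
    rw [zpow_mul]
    exact zpow_fix h1 k2
  have h4 : z ^ (k1 * k2) • w = w := by
    rw [mul_comm, zpow_mul]
    exact zpow_fix h2 k1
  obtain ⟨a, c, ha, hc, h5⟩ := vc_pow (hEd v w hvw) (z := (y : G)) (w := z ^ (k1 * k2))
    (Subgroup.mem_inf.2 ⟨hyv, hyw⟩) (Subgroup.mem_inf.2 ⟨h3, h4⟩) hy0
    (not_fin_zpow hz (mul_ne_zero hk1 hk2))
  rw [← zpow_mul] at h5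
  have hb : k1 * k2 * c ≠ 0 := mul_ne_zero (mul_ne_zero hk1 hk2) hc
  intro g m n hm hn h6
  have hyU : ∀ x : (U.comap ρ : Subgroup G), ρ (x : G) ∈ U := fun x => x.2
  let u : U := ⟨ρ ((y ^ a : (U.comap ρ : Subgroup G)) : G), hyU _⟩
  let g' : U := ⟨ρ (g : G), hyU g⟩
  have hu : ¬ IsOfFinOrder u := by
    intro h
    rw [isOfFinOrder_iff_zpow_eq_one] at h
    obtain ⟨i, hi, h7⟩ := h
    have h8 : ρ ((y : G) ^ a) ^ i = 1 := by
      have h9 := congrArg Subtype.val h7
      simpa [u] using h9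
    rw [h5, ← map_zpow, ← zpow_mul] at h8
    have h9 := ((hρ _).1 h8).2
    rw [hf.2 _ trivial] at h9
    have h10 : k1 * k2 * c * i = 0 := by exact_mod_cast h9
    rcases mul_eq_zero.1 h10 with h11 | h11
    · exact hb h11
    · exact hi h11
  refine balG_vc hU u hu g' m n hm hn ?_
  have h7 : g * (y ^ a) ^ m * g⁻¹ = (y ^ a) ^ n := by
    rw [← zpow_mul, mul_comm a m, zpow_mul, ← conj_zpow', h6, ← zpow_mul, ← zpow_mul, mul_comm]
  have h8 := congrArg (fun x : (U.comap ρ : Subgroup G) => ρ (x : G)) h7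
  apply Subtype.ext
  simpa [u, g'] using h8

end Pool.Agent.H75.CY
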