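import Pool.Agent.H76.VC.Main
import Pool.Agent.H76.GT.DefsT

/-!
# [H75 CY Defs] split elements: definitions

`SplitIn E z`: every finitely generated subgroup `H` of `E` which commensurates `z` has a homomorphism to the group of the affine
transformations `x ↦ D g x + f g` of `ℚ` which maps the powers `z ^ j` in `H`, `j ≠ 0`, to nonzero translations.
`Cr D z H f`: `f` is on `H` a crossed homomorphism for the character `D`, and `f (z ^ j) = j` for the powers of `z` in `H`.
-/

set_option autoImplicit false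

namespace Pool.Agent.H75.CY

open Pool.Agent.H98.FJ Pool.Agent.H76.VC

/-- `z` is split over `E`: every finitely generated subgroup `H` of `E` which commensurates `z` acts on `ℚ` by affine transformations
`x ↦ D g x + f g` such that the powers `z ^ j` in `H`, `j ≠ 0`, act by nonzero translations -/
def SplitIn {G : Type} [Group G] (E : Subgroup G) (z : G) : Prop :=
  ∀ H : Subgroup G, H.FG → H ≤ E → H ≤ Com z → ∃ (D : H →* ℚˣ) (f : H → ℚ),
    (∀ g h : H, f (g * h) = f g + D g * f h) ∧
      ∀ (j : ℤ) (hj : z ^ j ∈ H), j ≠ 0 → D ⟨z ^ j, hj⟩ = 1 ∧ f ⟨z ^ j, hj⟩ ≠ 0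

/-- `f` is on `H` a crossed homomorphism for the character `D`, and `f (z ^ j) = j` for the powers of `z` in `H` -/
def Cr {G : Type} [Group G] (D : G →* ℚˣ) (z : G) (H : Subgroup G) (f : G → ℚ) : Prop :=
  (∀ g ∈ H, ∀ h ∈ H, f (g * h) = f g + D g * f h) ∧ ∀ j : ℤ, z ^ j ∈ H → f (z ^ j) = j

/-- `D` is the modular homomorphism of `z` -/
def Mo {G : Type} [Group G] (z : G) (D : G →* ℚˣ) : Prop :=
  ∀ (g : G) (m n : ℤ), g * z ^ m * g⁻¹ = z ^ n → (D g : ℚ) * m = n

end Pool.Agent.H75.CY
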