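import Pool.Agent.H76.VC.Sub
import Pool.Agent.H75.CY.Defs

/-!
# [H75 CY Tz] the tree of the vertices which are fixed by a power of `z`

`pow_tree`: `W = {v | ∃ k ≠ 0, z ^ k • v = v}`. Invariant: let `z ^ k • v = v` and `g⁻¹ z ^ m g = z ^ n`, `m`, `n ≠ 0` (`hc g⁻¹`): `z ^ (m k) • g • v = g • (g⁻¹ z ^ m g) ^ k • v = g • z ^ (n k) • v = g • v`.
Convex: if `z ^ k` fixes `v` and `z ^ l` fixes `w` then `z ^ (k l)` fixes both, so the path between them. Same proof as `fix_tree` in Pool/Agent/H76/VC/Sub.lean (with its two private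
lemmas on `comap`).
-/

set_option autoImplicit false

namespace Pool.Agent.H75.CY

open Pool.Agent.H98.FJ Pool.Agent.H76.VC Pool.Agent.H93.TR

/-- a walk in `Y` inside the set `W` is a walk in the induced graph -/
private theorem reach_comap {G V : Type} [Group G] [MulAction G V] {Y : SimpleGraph V} {W : SubMulAction G V} {v w : V}
    (q : Y.Walk v w) (hq : ∀ x ∈ q.support, x ∈ W) :
    (Y.comap (fun x : W => (x : V))).Reachable ⟨v, hq v q.start_mem_support⟩ ⟨w, hq w q.end_mem_support⟩ := by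
  induction q with
  | nil => exact SimpleGraph.Reachable.refl _
  | @cons a b c h q ih =>
    have h1 : ∀ x ∈ q.support, x ∈ W := fun x hx => hq x (by
      rw [SimpleGraph.Walk.support_cons]
      exact List.mem_cons_of_mem _ hx)
    have h2 : (Y.comap (fun x : W => (x : V))).Adj ⟨a, hq a (by simp)⟩ ⟨b, h1 b q.start_mem_support⟩ := h
    exact h2.reachable.trans (ih h1)

private theorem comap_acyclic {G V : Type} [Group G] [MulAction G V] {X : SimpleGraph V} (hX : X.IsAcyclic)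
    (W : SubMulAction G V) : (X.comap (fun x : W => (x : V))).IsAcyclic :=
  hX.comap ⟨fun x : W => (x : V), fun {_ _} h => h⟩ Subtype.val_injective

/-- a power of an element which fixes `v` fixes `v` -/
private theorem zpow_fix {G V : Type} [Group G] [MulAction G V] {y : G} {v : V} (h : y • v = v) (k : ℤ) :
    y ^ k • v = v := by
  have h1 : y ∈ MulAction.stabilizer G v := h
  exact (MulAction.stabilizer G v).zpow_mem h1 k

/-- the vertices which are fixed by a power of `z` form an invariant set -/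
private theorem pow_smul {G V : Type} [Group G] [MulAction G V] {z : G} (hc : ∀ g : G, g ∈ Com z) (g : G) {v : V}
    (hv : ∃ k : ℤ, k ≠ 0 ∧ z ^ k • v = v) : ∃ k : ℤ, k ≠ 0 ∧ z ^ k • g • v = g • v := by
  obtain ⟨k, hk, hv⟩ := hv
  obtain ⟨m, n, hm, hn, h⟩ := mem_Com.1 (hc g⁻¹)
  refine ⟨m * k, mul_ne_zero hm hk, ?_⟩
  have h1 : g⁻¹ * z ^ (m * k) * g = z ^ (n * k) := by
    rw [zpow_mul, zpow_mul, ← h, inv_inv]
    have h2 := conj_zpow (i := k) (a := g⁻¹) (b := z ^ m)
    rw [inv_inv] at h2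
    exact h2.symm
  have h3 : z ^ (m * k) * g = g * z ^ (n * k) := by
    rw [← h1]
    group
  rw [← mul_smul, h3, mul_smul]
  congr 1
  rw [mul_comm n k, zpow_mul]
  exact zpow_fix hv n

theorem pow_tree {G V : Type} [Group G] [MulAction G V] {X : SimpleGraph V} (hX : OnTree G X) {z : G}
    (hc : ∀ g : G, g ∈ Com z) (v0 : V) (h0 : z • v0 = v0) :
    ∃ W : SubMulAction G V, (∀ v : V, v ∈ W ↔ ∃ k : ℤ, k ≠ 0 ∧ z ^ k • v = v) ∧
      OnTree G (X.comap (fun w : W => (w : V))) := by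
  let W : SubMulAction G V :=
    { carrier := {v | ∃ k : ℤ, k ≠ 0 ∧ z ^ k • v = v}
      smul_mem' := fun g _ hv => pow_smul hc g hv }
  have hWmem : ∀ v, v ∈ W ↔ ∃ k : ℤ, k ≠ 0 ∧ z ^ k • v = v := fun v => Iff.rfl
  refine ⟨W, hWmem, ⟨⟨?_, comap_acyclic hX.tree.isAcyclic W⟩, ?_⟩⟩
  · have : Nonempty W := ⟨⟨v0, (hWmem v0).2 ⟨1, one_ne_zero, by rw [zpow_one]; exact h0⟩⟩⟩
    refine ⟨?_⟩
    rintro ⟨a, ha⟩ ⟨b, hb⟩
    obtain ⟨k, hk, hka⟩ := (hWmem a).1 ha
    obtain ⟨l, hl, hlb⟩ := (hWmem b).1 hb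
    obtain ⟨p, hp⟩ := fixed_walk hX a b
    have h1 : z ^ (k * l) • a = a := by
      rw [zpow_mul]
      exact zpow_fix hka l
    have h2 : z ^ (k * l) • b = b := by
      rw [mul_comm, zpow_mul]
      exact zpow_fix hlb k
    exact reach_comap (W := W) p fun x hx => (hWmem x).2 ⟨k * l, mul_ne_zero hk hl, hp (z ^ (k * l)) h1 h2 x hx⟩
  · intro g a b h
    exact hX.adj g _ _ h

end Pool.Agent.H75.CY
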