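import Pool.Agent.H75.CY.Spl
import Pool.Agent.H75.CY.Glu
import Pool.Agent.H75.CY.Tz
import Pool.Agent.H75.CY.Mem

/-!
# [H75 CY Com] commensurators of split elements

`com_split`: by `Pool.Agent.H76.VC.of_fg` let `H` be a finitely generated subgroup of `Com z`, mapped to `G`; `K = H ⊔ zpowers z`, a finitely generated subgroup of `G` contained in `Com z`
(`z ∈ Com z`). It is enough that `C K` (`hC.of_injective`). Let `z' = ⟨z, _⟩ : K`. In the group `K`: `z'` has infinite order, `Com z' = ⊤`. Let `W` be the tree of `pow_tree` for `K` acting on `V`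
(`res_onTree`), `Y = X.comap Subtype.val`. The stabilisers of its vertices are subgroups of stabilisers of `V` (`res_stab`); `EdgeVC K Y` by `hEd` (a product of the exponents, `vc_of_injective`).
`SplitIn (stabilizer K w) z'` from `hs`: map a subgroup of `K` to `G` (`Subgroup.map K.subtype`), it is finitely generated, and isomorphic to it. `exists_mod`, `norm_fg`, `cr_compact`
(`mod_self`), `glue` for `K`, `W`, `Y`, then `mem_of_cr`.
-/

set_option autoImplicit false

namespace Pool.Agent.H75.CY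

open Pool.Agent.H98.FJ Pool.Agent.H76.VC Pool.Agent.H93.TR

/-- a split element is split over the corresponding subgroups of a subgroup which contains it -/
private theorem split_sub {G V : Type} [Group G] [MulAction G V] {K : Subgroup G} {z : G} (hzK : z ∈ K) {v : V}
    (h : SplitIn (MulAction.stabilizer G v) z) {E : Subgroup K} (hE : ∀ x ∈ E, (x : G) • v = v) :
    SplitIn E (⟨z, hzK⟩ : K) := by
  intro H hH hHE hHC
  have h1 : H.map K.subtype ≤ MulAction.stabilizer G v := by
    rintro _ ⟨x, hx, rfl⟩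
    exact hE x (hHE hx)
  have h2 : H.map K.subtype ≤ Com z := by
    rintro _ ⟨x, hx, rfl⟩
    obtain ⟨m, n, hm, hn, h3⟩ := hHC hx
    exact ⟨m, n, hm, hn, congrArg Subtype.val h3⟩
  have hfg : (H.map K.subtype).FG := by
    classical
    obtain ⟨S, hS⟩ := hH
    exact ⟨S.image K.subtype, by rw [Finset.coe_image, ← MonoidHom.map_closure, hS]⟩
  obtain ⟨D, f, hf, hj⟩ := h (H.map K.subtype) hfg h1 h2
  let e : H →* H.map K.subtype :=
    { toFun := fun x => ⟨(x : K), ⟨(x : K), x.2, rfl⟩⟩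
      map_one' := rfl
      map_mul' := fun _ _ => rfl }
  refine ⟨D.comp e, fun x => f (e x), fun x y => ?_, fun j hjH hj0 => ?_⟩
  · have h4 := hf (e x) (e y)
    rw [← map_mul] at h4
    exact h4
  · have h5 : z ^ j ∈ H.map K.subtype := ⟨(⟨z, hzK⟩ : K) ^ j, hjH, rfl⟩
    exact hj j h5 hj0

theorem com_split {C : (G : Type) → [Group G] → Prop} (hC : Inherits C) (hE : Extension C) (hA : AcylExt C)
    (hS : ∀ (G : Type) [Group G], Group.IsSolvable G → C G) {G V : Type} [Group G] [MulAction G V]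
    {X : SimpleGraph V} (hX : OnTree G X) (hv : ∀ v : V, C (MulAction.stabilizer G v)) {z : G}
    (hz : ¬ IsOfFinOrder z) {v0 : V} (h0 : z • v0 = v0)
    (hEd : ∀ v w : V, X.Adj v w → (∃ k : ℤ, k ≠ 0 ∧ z ^ k • v = v ∧ z ^ k • w = w) →
      VirtuallyCyclic (MulAction.stabilizer G v ⊓ MulAction.stabilizer G w : Subgroup G))
    (hs : ∀ v : V, (∃ k : ℤ, k ≠ 0 ∧ z ^ k • v = v) → SplitIn (MulAction.stabilizer G v) z) : C (Com z) := by
  have hzK : z ∈ Com z := ⟨1, 1, one_ne_zero, one_ne_zero, by group⟩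
  have hz' : ¬ IsOfFinOrder (⟨z, hzK⟩ : Com z) := not_fin_sub (z := (⟨z, hzK⟩ : Com z)) hz
  have hc : ∀ g : Com z, g ∈ Com (⟨z, hzK⟩ : Com z) := by
    rintro ⟨g, m, n, hm, hn, h1⟩
    exact ⟨m, n, hm, hn, Subtype.ext h1⟩
  have hXK : OnTree (Com z) X := res_onTree hX (Com z)
  obtain ⟨W, hW, hY⟩ := pow_tree hXK hc v0 h0
  have hWp : ∀ w : W, ∃ k : ℤ, k ≠ 0 ∧ z ^ k • (w : V) = w := fun w => by
    obtain ⟨k, hk, h1⟩ := (hW w).1 w.2
    exact ⟨k, hk, h1⟩
  have hfix : ∀ w : W, ∃ k : ℤ, k ≠ 0 ∧ (⟨z, hzK⟩ : Com z) ^ k • w = w := fun w => by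
    obtain ⟨k, hk, h1⟩ := (hW w).1 w.2
    exact ⟨k, hk, Subtype.ext h1⟩
  have hval : ∀ (g : Com z) (w : W), g • w = w → (g : G) • (w : V) = w := fun g w h =>
    congrArg (fun x : W => (x : V)) h
  have hvW : ∀ w : W, C (MulAction.stabilizer (Com z) w) := by
    intro w
    refine hC.of_injective (H := MulAction.stabilizer (Com z) (w : V))
      { toFun := fun x => ⟨x.1, hval _ _ x.2⟩
        map_one' := rfl
        map_mul' := fun _ _ => rfl } ?_ (res_stab hC hv (Com z) (w : V))
    intro a b hab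
    exact Subtype.ext (congrArg (fun y : MulAction.stabilizer (Com z) (w : V) => (y : Com z)) hab)
  have hEW : EdgeVC (Com z) (X.comap (fun w : W => (w : V))) := by
    intro v w h
    obtain ⟨k, hk, h1⟩ := hWp v
    obtain ⟨l, hl, h2⟩ := hWp w
    have h3 : z ^ (k * l) • (v : V) = v := by
      rw [zpow_mul]
      exact zpow_fix h1 l
    have h4 : z ^ (k * l) • (w : V) = w := by
      rw [mul_comm, zpow_mul]
      exact zpow_fix h2 k
    let ψ : (MulAction.stabilizer (Com z) v ⊓ MulAction.stabilizer (Com z) w : Subgroup (Com z)) →*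
        (MulAction.stabilizer G (v : V) ⊓ MulAction.stabilizer G (w : V) : Subgroup G) :=
      { toFun := fun h => ⟨(h.1 : G), hval _ _ h.2.1, hval _ _ h.2.2⟩
        map_one' := rfl
        map_mul' := fun _ _ => rfl }
    refine vc_of_injective ψ ?_ (hEd v w h ⟨k * l, mul_ne_zero hk hl, h3, h4⟩)
    intro a b hab
    have h5 : ((a.1 : Com z) : G) = b.1 := congrArg (fun y : (MulAction.stabilizer G (v : V) ⊓
      MulAction.stabilizer G (w : V) : Subgroup G) => (y : G)) hab
    exact Subtype.ext (Subtype.ext h5)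
  obtain ⟨D, hD⟩ := exists_mod hz' hc
  have hDz : D (⟨z, hzK⟩ : Com z) = 1 := by
    have h1 := mod_self hD 1
    rwa [zpow_one] at h1
  have hcr : ∀ w : W, ∃ f : Com z → ℚ, Cr D (⟨z, hzK⟩ : Com z) (MulAction.stabilizer (Com z) w) f := fun w =>
    cr_compact hDz fun H hH hHE =>
      norm_fg hz' hc hD (split_sub hzK (hs w (hWp w)) fun x hx => hval x w hx) hH hHE
  obtain ⟨f, hf⟩ := glue hY hEW hz' hc hD hfix hcr
  exact mem_of_cr hC hE hA hS hY hvW hEW hz' hfix hf

end Pool.Agent.H75.CY
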