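import Pool.Agent.H75.CY.Mod

/-!
# [H75 CY Cpt] from finitely generated subgroups to all subgroups

`cr_compact`: if no `z ^ j`, `j ≠ 0`, is in `E`: `f = 0`. Otherwise let `k ≠ 0`, `z ^ k ∈ E`. Let `A` be the `ℚ`-vector space `G →₀ ℚ` and `U ≤ A` the span of the elements
`single (g h) 1 - single g 1 - D g • single h 1`, `g`, `h ∈ E`. `single (z ^ k) 1 ∉ U`: otherwise it is in the span of finitely many of these elements (`Submodule.mem_span_finite_of_mem_span` or
`Submodule.mem_span_set'`); let `H` be the subgroup generated by `z ^ k` and the finitely many `g`, `h`, it is finitely generated and contained in `E`; for the `f` of `H`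
the linear map `A → ℚ`, `single x 1 ↦ f x` (`Finsupp.linearCombination ℚ f`) vanishes on these elements, but not at `single (z ^ k) 1`: `f (z ^ k) = k ≠ 0`. So there is a linear map
`L : A → ℚ` with `L = 0` on `U` and `L (single (z ^ k) 1) = k` (`Submodule.exists_dual_map_eq_bot_of_notMem` or `Submodule.exists_le_ker_of_notMem`; scale). Put `f g = L (single g 1)`: it is
crossed on `E`, and for `z ^ j ∈ E`: `k f (z ^ j) = f (z ^ (j k)) = j f (z ^ k) = j k` as `D z = 1` (for a `w ∈ E` with `D w = 1` `f (w ^ n) = n f w` for all integers `n`).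
-/

set_option autoImplicit false

namespace Pool.Agent.H75.CY

open Pool.Agent.H98.FJ Pool.Agent.H76.VC

theorem cr_pow {G : Type} [Group G] {z : G} {D : G →* ℚˣ} {E : Subgroup G} {f : G → ℚ}
    (hf : ∀ g ∈ E, ∀ h ∈ E, f (g * h) = f g + D g * f h) {w : G} (hw : w ∈ E) (hDw : D w = 1) (n : ℤ) :
    f (w ^ n) = n * f w := by
  have h1 : f 1 = 0 := by
    have h2 := hf 1 E.one_mem 1 E.one_mem
    rw [mul_one, map_one, Units.val_one, one_mul] at h2
    linarith
  have hnat : ∀ n : ℕ, f (w ^ n) = n * f w := by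
    intro n
    induction n with
    | zero => rw [pow_zero, h1]; simp
    | succ n ih =>
      rw [pow_succ', hf w hw (w ^ n) (E.pow_mem hw n), ih, hDw, Units.val_one]
      push_cast
      ring
  cases n with
  | ofNat n =>
    have h3 := hnat n
    rw [Int.ofNat_eq_natCast, zpow_natCast, h3, Int.cast_natCast]
  | negSucc n =>
    have h2 := hf (w ^ (n + 1)) (E.pow_mem hw _) ((w ^ (n + 1))⁻¹) (E.inv_mem (E.pow_mem hw _))
    rw [mul_inv_cancel, h1, hnat, map_pow, hDw, one_pow, Units.val_one] at h2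
    rw [zpow_negSucc, Int.cast_negSucc]
    push_cast at h2 ⊢
    linarith

theorem cr_compact {G : Type} [Group G] {z : G} {D : G →* ℚˣ} (hDz : D z = 1) {E : Subgroup G}
    (h : ∀ H : Subgroup G, H.FG → H ≤ E → ∃ f : G → ℚ, Cr D z H f) : ∃ f : G → ℚ, Cr D z E f := by
  classical
  by_cases hk : ∃ k : ℤ, k ≠ 0 ∧ z ^ k ∈ E
  swap
  · refine ⟨fun _ => 0, fun g _ h _ => by simp, fun j hj => ?_⟩
    by_cases hj0 : j = 0
    · simp [hj0]
    · exact absurd ⟨j, hj0, hj⟩ hk
  obtain ⟨k, hk0, hkE⟩ := hk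
  have hkq : (k : ℚ) ≠ 0 := by exact_mod_cast hk0
  let S : Set (G →₀ ℚ) := {v | ∃ a b : G, a ∈ E ∧ b ∈ E ∧
    v = Finsupp.single (a * b) 1 - Finsupp.single a 1 - Finsupp.single b (D a : ℚ)}
  have hnot : Finsupp.single (z ^ k) (1 : ℚ) ∉ Submodule.span ℚ S := by
    intro hmem
    obtain ⟨T, hTS, hT⟩ := Submodule.mem_span_finite_of_mem_span hmem
    have hch : ∀ v : G →₀ ℚ, v ∈ S → ∃ a b : G, a ∈ E ∧ b ∈ E ∧
        v = Finsupp.single (a * b) 1 - Finsupp.single a 1 - Finsupp.single b (D a : ℚ) :=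
      fun v hv => hv
    choose! a b ha hb hv using hch
    let H : Subgroup G := Subgroup.closure ((insert (z ^ k) (T.image a ∪ T.image b) : Finset G) : Set G)
    have hHE : H ≤ E := by
      rw [Subgroup.closure_le]
      intro x hx
      rw [Finset.mem_coe, Finset.mem_insert, Finset.mem_union, Finset.mem_image, Finset.mem_image] at hx
      rcases hx with rfl | ⟨v, hvT, rfl⟩ | ⟨v, hvT, rfl⟩
      · exact hkE
      · exact ha v (hTS hvT)
      · exact hb v (hTS hvT)
    have hzH : z ^ k ∈ H := Subgroup.subset_closure (by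
      rw [Finset.mem_coe]
      exact Finset.mem_insert_self _ _)
    have haH : ∀ v ∈ T, a v ∈ H := fun v hvT => Subgroup.subset_closure (by
      rw [Finset.mem_coe]
      exact Finset.mem_insert_of_mem (Finset.mem_union_left _ (Finset.mem_image_of_mem _ hvT)))
    have hbH : ∀ v ∈ T, b v ∈ H := fun v hvT => Subgroup.subset_closure (by
      rw [Finset.mem_coe]
      exact Finset.mem_insert_of_mem (Finset.mem_union_right _ (Finset.mem_image_of_mem _ hvT)))
    obtain ⟨f, hf1, hf2⟩ := h H ⟨_, rfl⟩ hHE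
    have hle : Submodule.span ℚ (T : Set (G →₀ ℚ)) ≤ LinearMap.ker (Finsupp.linearCombination ℚ f) := by
      rw [Submodule.span_le]
      intro v hvT
      rw [SetLike.mem_coe, LinearMap.mem_ker, hv v (hTS hvT), map_sub, map_sub,
        Finsupp.linearCombination_single, Finsupp.linearCombination_single,
        Finsupp.linearCombination_single, smul_eq_mul, smul_eq_mul, smul_eq_mul,
        hf1 (a v) (haH v hvT) (b v) (hbH v hvT)]
      ring
    have h3 := hle hT
    rw [LinearMap.mem_ker, Finsupp.linearCombination_single, smul_eq_mul, one_mul, hf2 k hzH] at h3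
    exact hkq h3
  obtain ⟨L, hL1, hL2⟩ := Submodule.exists_le_ker_of_notMem hnot
  have hcr : ∀ g ∈ E, ∀ h ∈ E, L (Finsupp.single (g * h) 1) =
      L (Finsupp.single g 1) + D g * L (Finsupp.single h 1) := by
    intro g hg h hh
    have h4 : Finsupp.single (g * h) (1 : ℚ) - Finsupp.single g 1 - Finsupp.single h (D g : ℚ) ∈
        Submodule.span ℚ S := Submodule.subset_span ⟨g, h, hg, hh, rfl⟩
    have h5 := hL2 h4
    have h6 : (Finsupp.single h (D g : ℚ) : G →₀ ℚ) = (D g : ℚ) • Finsupp.single h (1 : ℚ) := by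
      rw [Finsupp.smul_single, smul_eq_mul, mul_one]
    rw [LinearMap.mem_ker, map_sub, map_sub, h6, map_smul, smul_eq_mul] at h5
    linarith
  let c : ℚ := k / L (Finsupp.single (z ^ k) 1)
  let F : G → ℚ := fun g => c * L (Finsupp.single g 1)
  have hF : ∀ g ∈ E, ∀ h ∈ E, F (g * h) = F g + D g * F h := by
    intro g hg h hh
    show c * L (Finsupp.single (g * h) 1) = c * L (Finsupp.single g 1) + D g * (c * L (Finsupp.single h 1))
    rw [hcr g hg h hh]
    ring
  have hFk : F (z ^ k) = k := by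
    show k / L (Finsupp.single (z ^ k) 1) * L (Finsupp.single (z ^ k) 1) = k
    exact div_mul_cancel₀ _ hL1
  refine ⟨F, hF, fun j hj => ?_⟩
  have hD : ∀ n : ℤ, D (z ^ n) = 1 := fun n => by rw [map_zpow, hDz, one_zpow]
  have e1 : F ((z ^ j) ^ k) = k * F (z ^ j) := cr_pow (z := z) hF hj (hD j) k
  have e2 : F ((z ^ k) ^ j) = j * F (z ^ k) := cr_pow (z := z) hF hkE (hD k) j
  rw [← zpow_mul, mul_comm, zpow_mul] at e1
  rw [e1, hFk, mul_comm (j : ℚ)] at e2
  exact mul_left_cancel₀ hkq e2

end Pool.Agent.H75.CY
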