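import Pool.Agent.H75.CY.Mod

/-!
# [H75 CY Spl] normalised crossed homomorphisms on finitely generated subgroups

`norm_fg`: `H ≤ Com z` by `hc`, let `D'`, `f'` be as in `SplitIn` for `H`. (1) If no `z ^ j`, `j ≠ 0`, is in `H`: `f = 0`. (2) Otherwise let `k ≠ 0`, `z ^ k ∈ H`, `c = f' (z ^ k) ≠ 0`. For
`g ∈ H` let `g z ^ m g⁻¹ = z ^ n`, `m`, `n ≠ 0` (`hc g`); then `g (z ^ k) ^ m g⁻¹ = (z ^ k) ^ n`. `f'` is additive on the powers of `z ^ k` (`D' (z ^ (k j)) = 1`), so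
`f' ((z ^ k) ^ m) = m c`. `f' (g x g⁻¹) = f' g + D' g f' x - D' (g x g⁻¹) f' g = D' g f' x` for `x = (z ^ k) ^ m` (`f' g⁻¹ = - D' g⁻¹ f' g`, `D' x = 1`). So `D' g m c = n c` and
`D' g = n / m = D g` by `hD`. Put `f g = (k / c) f' g` for `g ∈ H` (and `0` outside of `H`). If `z ^ j ∈ H`: `k f' (z ^ j) = f' (z ^ (j k)) = j c`.
-/

set_option autoImplicit false

namespace Pool.Agent.H75.CY

open Pool.Agent.H98.FJ Pool.Agent.H76.VC

private theorem cr_one {H : Type} [Group H] {D : H →* ℚˣ} {f : H → ℚ}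
    (hf : ∀ g h : H, f (g * h) = f g + D g * f h) : f 1 = 0 := by
  have h := hf 1 1
  rw [mul_one, map_one, Units.val_one, one_mul] at h
  linarith

private theorem cr_pow {H : Type} [Group H] {D : H →* ℚˣ} {f : H → ℚ}
    (hf : ∀ g h : H, f (g * h) = f g + D g * f h) {y : H} (hy : D y = 1) (i : ℤ) : f (y ^ i) = i * f y := by
  have hadd : ∀ a b : ℤ, f (y ^ (a + b)) = f (y ^ a) + f (y ^ b) := by
    intro a b
    rw [zpow_add, hf, map_zpow, hy, one_zpow, Units.val_one, one_mul]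
  let φ : ℤ →+ ℚ := AddMonoidHom.mk' (fun a => f (y ^ a)) hadd
  have h1 : φ (i • (1 : ℤ)) = i • φ 1 := map_zsmul φ i 1
  have h2 : φ (i • (1 : ℤ)) = f (y ^ i) := by
    show f (y ^ (i • (1 : ℤ))) = f (y ^ i)
    rw [smul_eq_mul, mul_one]
  have h3 : φ 1 = f y := by
    show f (y ^ (1 : ℤ)) = f y
    rw [zpow_one]
  rw [h2, h3, zsmul_eq_mul] at h1
  exact h1

private theorem cr_conj {H : Type} [Group H] {D : H →* ℚˣ} {f : H → ℚ}
    (hf : ∀ g h : H, f (g * h) = f g + D g * f h) (g : H) {y : H} (hy : D y = 1) :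
    f (g * y * g⁻¹) = D g * f y := by
  have h1 : f (g * g⁻¹) = f g + D g * f g⁻¹ := hf g g⁻¹
  rw [mul_inv_cancel, cr_one hf] at h1
  rw [hf, hf, map_mul, hy, mul_one]
  linarith

theorem norm_fg {G : Type} [Group G] {z : G} (hz : ¬ IsOfFinOrder z) (hc : ∀ g : G, g ∈ Com z) {D : G →* ℚˣ}
    (hD : Mo z D) {E : Subgroup G} (h : SplitIn E z) {H : Subgroup G} (hH : H.FG) (hHE : H ≤ E) :
    ∃ f : G → ℚ, Cr D z H f := by
  classical
  obtain ⟨D', f', hf, hs⟩ := h H hH hHE (fun g _ => hc g)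
  by_cases hk : ∃ k : ℤ, k ≠ 0 ∧ z ^ k ∈ H
  · obtain ⟨k, hk0, hkH⟩ := hk
    obtain ⟨x, hx⟩ : ∃ x : H, x = ⟨z ^ k, hkH⟩ := ⟨_, rfl⟩
    have hDx : D' x = 1 := by
      rw [hx]
      exact (hs k hkH hk0).1
    have hcx : f' x ≠ 0 := by
      rw [hx]
      exact (hs k hkH hk0).2
    have hDD : ∀ g : H, (D' g : ℚ) = D (g : G) := by
      intro g
      obtain ⟨m, n, hm, hn, hmn⟩ := hc (g : G)
      have h1 : g * x ^ m * g⁻¹ = x ^ n := by
        apply Subtype.ext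
        rw [hx]
        show (g : G) * (z ^ k) ^ m * (g : G)⁻¹ = (z ^ k) ^ n
        rw [← zpow_mul, mul_comm k m, zpow_mul, ← conj_zpow', hmn, ← zpow_mul, ← zpow_mul, mul_comm n k]
      have hDm : D' (x ^ m) = 1 := by rw [map_zpow, hDx, one_zpow]
      have h2 := cr_conj hf g hDm
      rw [h1, cr_pow hf hDx, cr_pow hf hDx] at h2
      have h3 := hD (g : G) m n hmn
      have hm' : (m : ℚ) ≠ 0 := Int.cast_ne_zero.2 hm
      have h4 : (D' g : ℚ) * m = n := by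
        have h5 : ((D' g : ℚ) * m) * f' x = n * f' x := by
          rw [h2]
          ring
        exact mul_right_cancel₀ hcx h5
      exact mul_right_cancel₀ hm' (h4.trans h3.symm)
    refine ⟨fun g => if hg : g ∈ H then ((k : ℚ) / f' x) * f' ⟨g, hg⟩ else 0, ?_, ?_⟩
    · intro g hg h hh
      have hgh : g * h ∈ H := H.mul_mem hg hh
      simp only [hg, hh, hgh, dif_pos]
      have h1 : f' ⟨g * h, hgh⟩ = f' ⟨g, hg⟩ + D' ⟨g, hg⟩ * f' ⟨h, hh⟩ := hf ⟨g, hg⟩ ⟨h, hh⟩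
      have h2 : (D' ⟨g, hg⟩ : ℚ) = D g := hDD ⟨g, hg⟩
      rw [h1, h2]
      ring
    · intro j hj
      simp only [hj, dif_pos]
      obtain ⟨y, hy⟩ : ∃ y : H, y = ⟨z ^ j, hj⟩ := ⟨_, rfl⟩
      have hDy : D' y = 1 := by
        apply Units.ext
        rw [hDD y, hy]
        show ((D (z ^ j) : ℚˣ) : ℚ) = ((1 : ℚˣ) : ℚ)
        rw [mod_self hD j]
      have h1 : y ^ k = x ^ j := by
        apply Subtype.ext
        rw [hx, hy]
        show (z ^ j) ^ k = (z ^ k) ^ j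
        rw [← zpow_mul, ← zpow_mul, mul_comm]
      have h2 : (k : ℚ) * f' y = j * f' x := by
        rw [← cr_pow hf hDy, h1, cr_pow hf hDx]
      rw [← hy, div_mul_eq_mul_div, h2, mul_div_assoc, div_self hcx, mul_one]
  · refine ⟨fun _ => 0, ?_, ?_⟩
    · intro g _ h _
      rw [mul_zero, add_zero]
    · intro j hj
      by_cases hj0 : j = 0
      · rw [hj0, Int.cast_zero]
      · exact absurd ⟨j, hj0, hj⟩ hk

end Pool.Agent.H75.CY
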