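import Pool.Agent.H75.CY.Cpt

/-!
# [H75 CY Ind] the induced crossed homomorphism (Shapiro)

`exists_ind`: choose for every `v` a representative `r v` of its orbit (`Quotient.out`; `r (g • v) = r v`) and `s v : G` with `s v • r v = v`. Let `f v` be the crossed homomorphism on the
stabiliser of `v`, and `F g v = D (s v) * f (r v) ((s v)⁻¹ * g * s (g⁻¹ • v))`. The argument `x` is in the stabiliser of `r v`. Cocycle: with `u = g⁻¹ • v`, `(g h)⁻¹ • v = h⁻¹ • u`,
`(s v)⁻¹ g h s (h⁻¹ • u) = ((s v)⁻¹ g s u) ((s u)⁻¹ h s (h⁻¹ • u)) = x y`, `f (x y) = f x + D x f y`, `D (s v) D x = D g D (s u)`. Powers of `z`: let `z ^ j • v = v`, `s = s v`,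
`y = s⁻¹ z ^ j s`, in the stabiliser of `r v`. Let `s z ^ a s⁻¹ = z ^ b`, `a`, `b ≠ 0` (`hc s`): `D s a = b`. `y ^ b = s⁻¹ z ^ (j b) s = z ^ (j a)`. `D y = 1` (`mod_self`), so
`b f y = f (y ^ b) = f (z ^ (j a)) = j a` (`cr_pow`), and `F (z ^ j) v = D s f y = j`.
-/

set_option autoImplicit false

namespace Pool.Agent.H75.CY

open Pool.Agent.H98.FJ Pool.Agent.H76.VC

theorem exists_ind {G V : Type} [Group G] [MulAction G V] {z : G} (hc : ∀ g : G, g ∈ Com z) {D : G →* ℚˣ}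
    (hD : Mo z D) (h : ∀ v : V, ∃ f : G → ℚ, Cr D z (MulAction.stabilizer G v) f) :
    ∃ F : G → V → ℚ, (∀ (g h : G) (v : V), F (g * h) v = F g v + D g * F h (g⁻¹ • v)) ∧
      ∀ (j : ℤ) (v : V), z ^ j • v = v → F (z ^ j) v = j := by
  -- representatives of the orbits
  obtain ⟨r, hr⟩ : ∃ r : V → V, ∀ v, r v = (Quotient.mk (MulAction.orbitRel G V) v).out := ⟨_, fun _ => rfl⟩
  have hr1 : ∀ (g : G) (v : V), r (g • v) = r v := by
    intro g v
    rw [hr, hr]
    have e : Quotient.mk (MulAction.orbitRel G V) (g • v) = Quotient.mk (MulAction.orbitRel G V) v :=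
      Quotient.sound (MulAction.orbitRel_apply.2 (MulAction.mem_orbit v g))
    rw [e]
  have hr2 : ∀ v, ∃ s : G, s • r v = v := by
    intro v
    have e : Quotient.mk (MulAction.orbitRel G V) (r v) = Quotient.mk (MulAction.orbitRel G V) v := by
      rw [hr]
      exact Quotient.out_eq _
    have e2 := Quotient.exact e
    obtain ⟨g, hg⟩ := MulAction.orbitRel_apply.1 e2
    refine ⟨g⁻¹, ?_⟩
    rw [← hg]
    exact inv_smul_smul g v
  choose s hs using hr2
  choose f hf1 hf2 using h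
  have hrinv : ∀ (g : G) (v : V), r (g⁻¹ • v) = r v := fun g v => hr1 g⁻¹ v
  have hmem : ∀ (g : G) (v : V), (s v)⁻¹ * g * s (g⁻¹ • v) ∈ MulAction.stabilizer G (r v) := by
    intro g v
    rw [MulAction.mem_stabilizer_iff, mul_smul, mul_smul]
    have h1 := hs (g⁻¹ • v)
    rw [hrinv] at h1
    rw [h1, smul_inv_smul, inv_smul_eq_iff, hs]
  refine ⟨fun g v => D (s v) * f (r v) ((s v)⁻¹ * g * s (g⁻¹ • v)), ?_, ?_⟩
  · intro g h v
    obtain ⟨u, hu⟩ : ∃ u, u = g⁻¹ • v := ⟨_, rfl⟩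
    have hru : r u = r v := by
      rw [hu]
      exact hrinv g v
    have e1 : (g * h)⁻¹ • v = h⁻¹ • u := by rw [mul_inv_rev, mul_smul, hu]
    have hx := hmem g v
    have hy := hmem h u
    rw [← hu] at hx
    rw [hru] at hy
    have e2 : (s v)⁻¹ * (g * h) * s (h⁻¹ • u) = ((s v)⁻¹ * g * s u) * ((s u)⁻¹ * h * s (h⁻¹ • u)) := by group
    have e3 := hf1 (r v) _ hx _ hy
    have e4 : ((D (s v) : ℚˣ) : ℚ) * (D ((s v)⁻¹ * g * s u) : ℚˣ) = (D g : ℚˣ) * (D (s u) : ℚˣ) := by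
      rw [← Units.val_mul, ← Units.val_mul, ← map_mul, ← map_mul]
      have : s v * ((s v)⁻¹ * g * s u) = g * s u := by group
      rw [this]
    simp only
    rw [e1, e2, ← hu, hru, e3, mul_add, ← mul_assoc, e4]
    ring
  · intro j v hv
    have hv' : (z ^ j)⁻¹ • v = v := by rw [inv_smul_eq_iff, hv]
    simp only
    rw [hv']
    obtain ⟨y, hy⟩ : ∃ y, y = (s v)⁻¹ * z ^ j * s v := ⟨_, rfl⟩
    have hym : y ∈ MulAction.stabilizer G (r v) := by
      have := hmem (z ^ j) v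
      rw [hv'] at this
      rw [hy]
      exact this
    obtain ⟨a, b, ha, hb, hab⟩ := mem_Com.1 (hc (s v))
    have hDs := hD (s v) a b hab
    have hDy : D y = 1 := by
      rw [hy, map_mul, map_mul, mod_self hD, mul_one, map_inv, inv_mul_cancel]
    have hpow : y ^ b = z ^ (j * a) := by
      have e1 : y = (s v)⁻¹ * z ^ j * ((s v)⁻¹)⁻¹ := by rw [hy, inv_inv]
      have e2 : y ^ b = (s v)⁻¹ * (z ^ j) ^ b * ((s v)⁻¹)⁻¹ := by rw [e1, conj_zpow]
      have e3 : (z ^ j) ^ b = (z ^ b) ^ j := by rw [← zpow_mul, ← zpow_mul, mul_comm]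
      have e4 : (z ^ b) ^ j = s v * (z ^ a) ^ j * (s v)⁻¹ := by rw [← hab, conj_zpow]
      rw [e2, e3, e4, mul_comm j a, zpow_mul]
      group
    have h1 := cr_pow (z := z) (hf1 (r v)) hym hDy b
    have h2 : z ^ (j * a) ∈ MulAction.stabilizer G (r v) := by
      rw [← hpow]
      exact Subgroup.zpow_mem _ hym b
    have h3 := hf2 (r v) _ h2
    rw [hpow, h3] at h1
    rw [← hy]
    have ha' : (a : ℚ) ≠ 0 := by exact_mod_cast ha
    have h4 : ((D (s v) : ℚˣ) : ℚ) * f (r v) y * a = (j : ℚ) * a := by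
      calc ((D (s v) : ℚˣ) : ℚ) * f (r v) y * a = (((D (s v) : ℚˣ) : ℚ) * a) * f (r v) y := by ring
        _ = b * f (r v) y := by rw [hDs]
        _ = (j : ℚ) * a := by
            rw [← h1]
            push_cast
            rfl
    exact mul_right_cancel₀ ha' h4

end Pool.Agent.H75.CY
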