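import Pool.Agent.H75.CY.Com
import Pool.Agent.H54.PQ.Fin

/-!
# [H75 CY Main] trees with virtually cyclic edge stabilisers
-/

set_option autoImplicit false

namespace Pool.Agent.H75.CY

open Pool.Agent.H98.FJ Pool.Agent.H76.VC Pool.Agent.H93.TR Pool.Agent.H76.GT

theorem cyc_main {C : (G : Type) → [Group G] → Prop} (hC : Inherits C) (hE : Extension C) (hT : Transfer C)
    (hS : ∀ (G : Type) [Group G], Group.IsSolvable G → C G) {G V : Type} [Group G] [MulAction G V]
    {X : SimpleGraph V} (hX : OnTree G X) (hv : ∀ v : V, C (MulAction.stabilizer G v)) (hEd : EdgeVC G X) :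
    C G ↔ ∀ z : G, (∃ v w : V, X.Adj v w ∧ z • v = v ∧ z • w = w) → ¬ IsOfFinOrder z → ¬ Bal z →
      ¬ (∀ v : V, (∃ k : ℤ, k ≠ 0 ∧ z ^ k • v = v) → SplitIn (MulAction.stabilizer G v) z) → C (Com z) := by
  constructor
  · intro h z _ _ _ _
    exact hC.sub G (Com z) h
  · intro h
    have hA := Pool.Agent.H54.PQ.acylExt_of_transfer hC hT
    refine main hC hA hX hv hEd ?_
    intro z v w hvw h1 h2 hz hb
    by_cases hs : ∀ v : V, (∃ k : ℤ, k ≠ 0 ∧ z ^ k • v = v) → SplitIn (MulAction.stabilizer G v) z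
    · exact com_split hC hE hA hS hX hv hz h1 (fun a b hab _ => hEd a b hab) hs
    · exact h z ⟨v, w, hvw, h1, h2⟩ hz hb hs

end Pool.Agent.H75.CY
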