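import Pool.Agent.H75.CY.Defs

/-!
# [H75 CY Mod] the modular homomorphism

`exists_mod`: for `g` choose `m`, `n ≠ 0` with `g z ^ m g⁻¹ = z ^ n` and put `D g = n / m`. If also `g z ^ a g⁻¹ = z ^ b` then `z ^ (n a) = g z ^ (m a) g⁻¹ = z ^ (b m)`, so
`n a = b m` (`Pool.Agent.H76.VC.not_fin_pow`; also for `a = 0`: then `z ^ b = 1`, `b = 0`). Multiplicative: `Pool.Agent.H76.VC.com_mul`.
`mod_self`: `z * z ^ 1 * z⁻¹ = z ^ 1`.
-/

set_option autoImplicit false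

namespace Pool.Agent.H75.CY

open Pool.Agent.H98.FJ Pool.Agent.H76.VC

private theorem mod_key {G : Type} [Group G] {z g : G} (hz : ¬ IsOfFinOrder z) {m n a b : ℤ}
    (h1 : g * z ^ m * g⁻¹ = z ^ n) (h2 : g * z ^ a * g⁻¹ = z ^ b) : n * a = b * m := by
  have h3 : z ^ (n * a) = g * z ^ (m * a) * g⁻¹ := by
    rw [zpow_mul z m a, ← conj_zpow', h1, ← zpow_mul]
  have h4 : z ^ (b * m) = g * z ^ (m * a) * g⁻¹ := by
    rw [mul_comm m a, zpow_mul z a m, ← conj_zpow', h2, ← zpow_mul]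
  exact injective_zpow_iff_not_isOfFinOrder.2 hz (h3.trans h4.symm)

theorem exists_mod {G : Type} [Group G] {z : G} (hz : ¬ IsOfFinOrder z) (hc : ∀ g : G, g ∈ Com z) :
    ∃ D : G →* ℚˣ, Mo z D := by
  have hc' : ∀ g : G, ∃ m n : ℤ, m ≠ 0 ∧ n ≠ 0 ∧ g * z ^ m * g⁻¹ = z ^ n := fun g => hc g
  choose m n hm hn h using hc'
  have hq : ∀ g : G, ((n g : ℚ) / (m g : ℚ)) ≠ 0 := fun g =>
    div_ne_zero (Int.cast_ne_zero.2 (hn g)) (Int.cast_ne_zero.2 (hm g))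
  have hm' : ∀ g : G, ((m g : ℤ) : ℚ) ≠ 0 := fun g => Int.cast_ne_zero.2 (hm g)
  refine ⟨MonoidHom.mk' (fun g => Units.mk0 ((n g : ℚ) / (m g : ℚ)) (hq g)) ?_, ?_⟩
  · intro a b
    apply Units.ext
    show ((n (a * b) : ℚ) / (m (a * b) : ℚ)) = (n a : ℚ) / (m a : ℚ) * ((n b : ℚ) / (m b : ℚ))
    have h1 := mod_key hz (h (a * b)) (com_mul (h a) (h b))
    have h2 : (n (a * b) : ℚ) * ((m b : ℚ) * m a) = ((n a : ℚ) * n b) * m (a * b) := by
      exact_mod_cast h1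
    rw [div_mul_div_comm, div_eq_div_iff (hm' _) (mul_ne_zero (hm' _) (hm' _))]
    linarith
  · intro g x y hxy
    show ((n g : ℚ) / (m g : ℚ)) * x = y
    have h1 := mod_key hz (h g) hxy
    have h2 : (n g : ℚ) * x = (y : ℚ) * m g := by exact_mod_cast h1
    rw [div_mul_eq_mul_div, div_eq_iff (hm' g)]
    exact h2

theorem mod_self {G : Type} [Group G] {z : G} {D : G →* ℚˣ} (hD : Mo z D) (j : ℤ) : D (z ^ j) = 1 := by
  have h1 := hD (z ^ j) 1 1 (by group)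
  apply Units.ext
  simpa using h1

end Pool.Agent.H75.CY
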